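import Pool.Agent.WAR.StmtsL
import Pool.Agent.WAR.StmtsT

set_option autoImplicit false

/-! # Row UOP of squad WAR: the unipotent points form an open set -/

namespace Pool.Agent.WAR.H47

open Classical Pool.Agent.WAR

variable [Par]

theorem uop (gdf : GdfStmt) (loc : LocStmt) (_ufr : UfrStmt) (zlv : ZlvStmt) : UopStmt := by
  intro F _ ϖ hF z hz hu
  obtain ⟨d, P, Q, hd, hzk, c, e, T, hce, hT, hB⟩ := hu
  obtain ⟨hadd, hsm, -⟩ := zlv F ϖ hF d hd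
  have badd : ∀ A B : Pt d, Big 1 A → Big 1 B → Big 1 (A + B) := fun A B hA hB =>
    (hadd (max ‖zs A‖ ‖zs B‖) A B ⟨hA, le_max_left _ _⟩ ⟨hB, le_max_right _ _⟩).1.1
  have bsm : ∀ (a : ℤ) (A : Pt d), Big 1 A → Big 1 (sm a A) := fun a A hA =>
    (hsm ‖zs A‖ a A ⟨hA, le_refl _⟩).1
  rw [hzk] at hz
  obtain ⟨O, hO, hzO, h⟩ := loc F (gdf F (Or.inl ⟨ϖ, hF⟩)) d hd P Q hz 1
  refine ⟨O, hO, by rw [hzk]; exact hzO, ?_⟩
  intro z1 hz1 hU1
  obtain ⟨p, q, hp, hq, he⟩ := h z1 hz1 hU1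
  refine ⟨d, P + p, Q + q, hd, he, c, e, T, hce, hT, ?_⟩
  have h1 : sm c (P + p) + sm e (Q + q) - T =
      (sm c P + sm e Q - T) + (sm c p + sm e q) := by
    simp only [sm_def, smul_add]
    abel
  rw [h1]
  exact badd _ _ hB (badd _ _ (bsm c p hp) (bsm e q hq))

end Pool.Agent.WAR.H47
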